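import Pool.Agent.H369.TH.Stm

/-!
# TH11: division by a linear polynomial with theta coefficients
-/

set_option autoImplicit false

namespace Pool.Agent.H331.TH

open Pool.Agent.H369.TH Polynomial

section alg

variable {A : Type} [CommRing A] {L : Type} [Field L] (ι : A →+* L)

/-- the divided derivatives at the point `g / θ` -/
theorem hasse_eval (θ g : A) (hθ : ι θ ≠ 0) (F : A[X]) (J i : ℕ) (hF : F.natDegree < J + 1) :
    ι θ ^ J * (hasseDeriv i (F.map ι)).eval (ι g / ι θ) =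
      ι θ ^ i * ι (∑ j ∈ Finset.range (J + 1), (j.choose i : A) * F.coeff j *
        g ^ (j - i) * θ ^ (J - j)) := by
  have hF' : (F.map ι).natDegree < J + 1 := lt_of_le_of_lt natDegree_map_le hF
  rw [hasseDeriv_apply, Polynomial.sum_over_range' _ _ (J + 1) hF', eval_finsetSum, map_sum,
    Finset.mul_sum, Finset.mul_sum]
  · refine Finset.sum_congr rfl fun j hj => ?_
    rw [eval_monomial, coeff_map, map_mul, map_mul, map_mul, map_pow, map_pow, map_natCast]
    by_cases hij : i ≤ j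
    · have hj' : j ≤ J := by
        have := Finset.mem_range.1 hj
        omega
      have e : ι θ ^ J = ι θ ^ i * ι θ ^ (j - i) * ι θ ^ (J - j) := by
        rw [← pow_add, ← pow_add]
        congr 1
        omega
      rw [e, div_pow]
      have h1 : ι θ ^ (j - i) ≠ 0 := pow_ne_zero _ hθ
      field_simp
    · rw [Nat.choose_eq_zero_of_lt (not_le.1 hij)]
      simp
  · intro n
    rw [mul_zero, monomial_zero_right]

theorem dvd_of_hasse (θ g : A) (hθ : ι θ ≠ 0) (F : A[X]) (J k : ℕ) (hF : F.natDegree < J + 1)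
    (h : ∀ i < k, ∑ j ∈ Finset.range (J + 1), (j.choose i : A) * F.coeff j *
        g ^ (j - i) * θ ^ (J - j) = 0) :
    (X - C (ι g / ι θ)) ^ k ∣ F.map ι := by
  rw [X_sub_C_pow_dvd_iff, X_pow_dvd_iff]
  intro i hi
  rw [← taylor_apply, taylor_coeff]
  have h1 := hasse_eval ι θ g hθ F J i hF
  rw [h i hi, map_zero, mul_zero] at h1
  exact (mul_eq_zero.1 h1).resolve_left (pow_ne_zero _ hθ)

theorem sum_of_eval (hι : Function.Injective ι) (θ g : A) (hθ : ι θ ≠ 0) (F : A[X]) (J : ℕ)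
    (hF : F.natDegree < J + 1) (h : (F.map ι).eval (ι g / ι θ) = 0) :
    ∑ j ∈ Finset.range (J + 1), F.coeff j * g ^ j * θ ^ (J - j) = 0 := by
  have h1 := hasse_eval ι θ g hθ F J 0 hF
  rw [hasseDeriv_zero', h, mul_zero, pow_zero, one_mul] at h1
  have h2 := hι ((map_zero ι).trans h1)
  rw [h2]
  refine Finset.sum_congr rfl fun j _ => ?_
  rw [Nat.choose_zero_right, Nat.cast_one, one_mul, Nat.sub_zero]

theorem map_B (θ g : A) (hθ : ι θ ≠ 0) :
    (C θ * X - C g).map ι = C (ι θ) * (X - C (ι g / ι θ)) := by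
  rw [Polynomial.map_sub, Polynomial.map_mul, map_C, map_C, map_X, mul_sub, ← C_mul,
    mul_div_cancel₀ _ hθ]

end alg

section thm

variable {Γ K : Type} [AddCommGroup Γ] [LinearOrder Γ] [IsOrderedAddMonoid Γ] [Field K]

omit [LinearOrder Γ] [IsOrderedAddMonoid Γ] in
theorem ng_mul (a b : Pt Γ K) : ng a * ng b = a * b := by
  unfold ng
  have h : (ng1 : Pt Γ K) * ng1 = 1 := by
    unfold ng1
    ext
    · simp
    · simp
  calc ng1 * a * (ng1 * b) = (ng1 * ng1) * (a * b) := by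
        rw [mul_mul_mul_comm]
    _ = a * b := by rw [h, one_mul]

theorem grp1 {G : Type} [CommGroup G] (a b c : G) (m : ℤ) :
    a * b * (c * a ^ (-(m + 1)) * b ^ (-1 : ℤ)) = c * a ^ (-m) := by
  have e : a ^ (-(m + 1)) = a ^ (-m) * a⁻¹ := by
    rw [neg_add, zpow_add, zpow_neg_one]
  rw [e, zpow_neg_one]
  calc a * b * (c * (a ^ (-m) * a⁻¹) * b⁻¹) = c * a ^ (-m) * (a * a⁻¹) * (b * b⁻¹) := by ac_rfl
    _ = c * a ^ (-m) := by rw [mul_inv_cancel, mul_inv_cancel, mul_one, mul_one]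

theorem grp2 {G : Type} [CommGroup G] (a b c : G) (m : ℤ) :
    c * a ^ (-(m + 1)) * b ^ (-1 : ℤ) = c * a ^ (-1 : ℤ) * b ^ (-1 : ℤ) * a ^ (-m) := by
  rw [neg_add, zpow_add]
  ac_rfl

theorem grp3 {G : Type} [CommGroup G] (a b c : G) (m k : ℤ) :
    c * a ^ (-1 : ℤ) * b ^ (-1 : ℤ) * a ^ (-(m + k)) * b ^ (-k) =
      c * a ^ (-(m + (k + 1))) * b ^ (-(k + 1)) := by
  rw [show -(m + (k + 1)) = -1 + -(m + k) by ring, show -(k + 1) = -1 + -k by ring, zpow_add,
    zpow_add]
  ac_rfl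

/-- division by the linear polynomial -/
theorem once [CharZero K] (h1 : S_rules) (h3 : S_Th) (h4 : S_theta) (h5 : S_div)
    (P : Γ) (hP : Big P) {L : Type} [Field L] (ι : Ent Γ K →+* L) (hι : Function.Injective ι)
    (x0 x1 y1 y2 : Pt Γ K) (hxy : y1 * y2 = x0 * x1)
    (hg : PowerSeries.coeff 0 (T x1 (theta P y1 * theta P y2)) ≠ 0) (D : ℤ) (C₀ : Pt Γ K) (J : ℕ) :
    ∀ F : (Ent Γ K)[X], (∀ j : ℕ, F.coeff j ∈ Th P (D - (j : ℤ)) (C₀ * ng x0 ^ (-(j : ℤ)))) →
      (∀ j, J ≤ j → F.coeff j = 0) →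
      (F.map ι).eval (ι (theta P y1 * theta P y2) / ι (theta P x1)) = 0 →
      ∃ R : (Ent Γ K)[X], F = (C (theta P x1) * X - C (theta P y1 * theta P y2)) * R ∧
        (∀ j : ℕ, R.coeff j ∈ Th P (D - 2 - (j : ℤ)) (C₀ * ng x0 ^ (-1 : ℤ) * ng x1 ^ (-1 : ℤ) *
          ng x0 ^ (-(j : ℤ)))) ∧
        (∀ j, J ≤ j + 1 → R.coeff j = 0) := by
  have hdom : IsDomain (Ent Γ K) := (h1 Γ K).1
  have hθ : theta P x1 ≠ 0 := (h4 Γ K P hP x1).2.1
  have hθ' : ι (theta P x1) ≠ 0 := fun h => hθ (hι (h.trans (map_zero ι).symm))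
  have htriv : ∀ (J : ℕ) (F : (Ent Γ K)[X]), F = 0 → ∃ R : (Ent Γ K)[X],
      F = (C (theta P x1) * X - C (theta P y1 * theta P y2)) * R ∧
        (∀ j : ℕ, R.coeff j ∈ Th P (D - 2 - (j : ℤ)) (C₀ * ng x0 ^ (-1 : ℤ) * ng x1 ^ (-1 : ℤ) *
          ng x0 ^ (-(j : ℤ)))) ∧
        (∀ j, J ≤ j + 1 → R.coeff j = 0) := by
    intro J F hF
    refine ⟨0, by rw [hF, mul_zero], fun j => ?_, fun j _ => coeff_zero j⟩
    rw [coeff_zero]
    exact Submodule.zero_mem _
  induction J with
  | zero =>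
    intro F _ hF0 _
    exact htriv 0 F (Polynomial.ext fun j => (hF0 j (Nat.zero_le j)).trans (coeff_zero j).symm)
  | succ n ih =>
    intro F hF hF0 hev
    have hdeg : F.natDegree < n + 1 :=
      Nat.lt_succ_of_le (natDegree_le_iff_coeff_eq_zero.2 fun j hj => hF0 j hj)
    have hs := sum_of_eval ι hι _ _ hθ' F n hdeg hev
    obtain ⟨g, hgdef⟩ : ∃ g, g = theta P y1 * theta P y2 := ⟨_, rfl⟩
    obtain ⟨θ, hθdef⟩ : ∃ θ, θ = theta P x1 := ⟨_, rfl⟩
    have hgT : g ∈ Th P (1 + 1) (ng y1 * ng y2) := by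
      rw [hgdef]
      exact (h3 Γ K P hP).2.2.2.1 1 1 _ _ _ _ (h4 Γ K P hP y1).1 (h4 Γ K P hP y2).1
    rw [← hgdef] at hg
    rw [← hgdef, ← hθdef] at hs hev ih ⊢
    rw [← hθdef] at hθ'
    have hθT : PowerSeries.coeff 0 (T x1 θ) = 0 := by
      rw [hθdef]
      exact (h4 Γ K P hP x1).2.2.1
    cases n with
    | zero =>
      have hF00 : F.coeff 0 = 0 := by
        rw [Finset.sum_range_succ, Finset.sum_range_zero, zero_add, Nat.sub_zero, pow_zero,
          pow_zero, mul_one, mul_one] at hs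
        exact hs
      have hFz : F = 0 := Polynomial.ext fun j => by
        rcases Nat.eq_zero_or_pos j with h | h
        · rw [h, hF00, coeff_zero]
        · rw [hF0 j h, coeff_zero]
      rw [hgdef, hθdef]
      exact htriv _ F hFz
    | succ m =>
      -- the leading coefficient vanishes at `x1`
      obtain ⟨c₀, hc₀⟩ : ∃ c₀ : Ent Γ K →+* HG Γ K, ∀ f, c₀ f = PowerSeries.coeff 0 (T x1 f) :=
        ⟨PowerSeries.constantCoeff.comp (T x1), fun f => by
          rw [PowerSeries.coeff_zero_eq_constantCoeff]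
          rfl⟩
      have hlead : PowerSeries.coeff 0 (T x1 (F.coeff (m + 1))) = 0 := by
        have e1 := congrArg c₀ hs
        rw [Finset.sum_range_succ, map_add, map_zero, map_sum, Finset.sum_eq_zero, zero_add,
          Nat.sub_self, pow_zero, mul_one, map_mul, map_pow] at e1
        · rw [← hc₀]
          refine (mul_eq_zero.1 e1).resolve_right (pow_ne_zero _ ?_)
          rw [hc₀]
          exact hg
        · intro j hj
          have hj' := Finset.mem_range.1 hj
          rw [map_mul, map_pow, hc₀ θ, hθT, zero_pow (by omega), mul_zero]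
      obtain ⟨Q, hQ, hFQ⟩ := h5 Γ K P hP (D - ((m + 1 : ℕ) : ℤ)) (C₀ * ng x0 ^ (-((m + 1 : ℕ) : ℤ)))
        x1 (F.coeff (m + 1)) (hF (m + 1)) 1 (fun l hl => by
          rw [Nat.lt_one_iff.1 hl]
          exact hlead)
      rw [pow_one, ← hθdef] at hFQ
      have hQ1 : Q ∈ Th P (D - (m : ℤ) - 2) (C₀ * ng x0 ^ (-((m : ℤ) + 1)) * ng x1 ^ (-1 : ℤ)) := by
        have e1 : D - (m : ℤ) - 2 = D - ((m + 1 : ℕ) : ℤ) - ((1 : ℕ) : ℤ) := by push_cast; ring
        rw [e1]
        exact_mod_cast hQ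
      have hgQ : g * Q ∈ Th P (D - (m : ℤ)) (C₀ * ng x0 ^ (-(m : ℤ))) := by
        have e1 := (h3 Γ K P hP).2.2.2.1 _ _ _ _ _ _ hgT hQ1
        have e2 : ng y1 * ng y2 * (C₀ * ng x0 ^ (-((m : ℤ) + 1)) * ng x1 ^ (-1 : ℤ)) =
            C₀ * ng x0 ^ (-(m : ℤ)) := by
          rw [ng_mul, hxy, ← ng_mul x0 x1]
          exact grp1 (ng x0) (ng x1) C₀ (m : ℤ)
        rw [e2, show (1 + 1 + (D - (m : ℤ) - 2) : ℤ) = D - (m : ℤ) by ring] at e1
        exact e1
      have hB : (C θ * X - C g) * (C Q * X ^ m) =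
          monomial (m + 1) (θ * Q) - monomial m (g * Q) := by
        rw [← C_mul_X_pow_eq_monomial, ← C_mul_X_pow_eq_monomial, C_mul, C_mul]
        ring
      have hco : ∀ j, (F - (C θ * X - C g) * (C Q * X ^ m)).coeff j =
          F.coeff j - ((if m + 1 = j then θ * Q else 0) - if m = j then g * Q else 0) := by
        intro j
        rw [coeff_sub, hB, coeff_sub, coeff_monomial, coeff_monomial]
      obtain ⟨R, hR1, hR2, hR3⟩ := ih (F - (C θ * X - C g) * (C Q * X ^ m)) (by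
          intro j
          rw [hco]
          by_cases e1 : m + 1 = j
          · subst e1
            rw [if_pos rfl, if_neg (by omega), sub_zero, hFQ, sub_self]
            exact Submodule.zero_mem _
          · rw [if_neg e1]
            by_cases e2 : m = j
            · subst e2
              rw [if_pos rfl, zero_sub, sub_neg_eq_add]
              exact Submodule.add_mem _ (hF m) hgQ
            · rw [if_neg e2, sub_zero, sub_zero]
              exact hF j) (by
          intro j hj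
          rw [hco, if_neg (by omega : ¬ m = j), sub_zero]
          by_cases e1 : m + 1 = j
          · subst e1
            rw [if_pos rfl, hFQ, sub_self]
          · rw [if_neg e1, sub_zero]
            exact hF0 j (by omega)) (by
          rw [Polynomial.map_sub, Polynomial.map_mul, map_B ι θ g hθ', eval_sub, hev, eval_mul,
            eval_mul, eval_sub, eval_X, eval_C, eval_C, sub_self, mul_zero, zero_mul, sub_zero])
      refine ⟨R + C Q * X ^ m, ?_, ?_, ?_⟩
      · rw [mul_add, ← hR1]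
        ring
      · intro j
        rw [coeff_add, coeff_C_mul, coeff_X_pow]
        refine Submodule.add_mem _ (hR2 j) ?_
        split_ifs with e1
        · subst e1
          rw [mul_one, ← grp2, show D - 2 - (j : ℤ) = D - (j : ℤ) - 2 by ring]
          exact hQ1
        · rw [mul_zero]
          exact Submodule.zero_mem _
      · intro j hj
        rw [coeff_add, hR3 j (by omega), coeff_C_mul, coeff_X_pow, if_neg (by omega), mul_zero,
          add_zero]

/-- **TH11** -/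
theorem quot (h1 : S_rules) (h2 : S_T) (h3 : S_Th) (h4 : S_theta) (h5 : S_div) : S_quot := by
  intro Γ K _ _ _ _ _ P hP D J k C₀ x0 x1 y1 y2 hxy hg F hF hdeg hsum
  have _ := h2
  have hdom : IsDomain (Ent Γ K) := (h1 Γ K).1
  have hθ : theta P x1 ≠ 0 := (h4 Γ K P hP x1).2.1
  have hι : Function.Injective (algebraMap (Ent Γ K) (FractionRing (Ent Γ K))) :=
    IsFractionRing.injective _ _
  generalize algebraMap (Ent Γ K) (FractionRing (Ent Γ K)) = ι at hι
  have hθ' : ι (theta P x1) ≠ 0 := fun h => hθ (hι (h.trans (map_zero ι).symm))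
  have hdvd := dvd_of_hasse ι _ _ hθ' F J k (by omega) hsum
  have main : ∀ (k J : ℕ) (D : ℤ) (C₀ : Pt Γ K) (F : (Ent Γ K)[X]),
      (∀ j : ℕ, F.coeff j ∈ Th P (D - (j : ℤ)) (C₀ * ng x0 ^ (-(j : ℤ)))) →
      (∀ j, J ≤ j → F.coeff j = 0) →
      (X - C (ι (theta P y1 * theta P y2) / ι (theta P x1))) ^ k ∣ F.map ι →
      ∃ R : (Ent Γ K)[X], F = (C (theta P x1) * X - C (theta P y1 * theta P y2)) ^ k * R ∧
        (∀ j : ℕ, R.coeff j ∈ Th P (D - 2 * k - (j : ℤ))
          (C₀ * ng x0 ^ (-((j : ℤ) + k)) * ng x1 ^ (-(k : ℤ)))) ∧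
        (∀ j, J ≤ j + k → R.coeff j = 0) := by
    intro k
    induction k with
    | zero =>
      intro J D C₀ F hF hF0 _
      refine ⟨F, by rw [pow_zero, one_mul], fun j => ?_, fun j hj => hF0 j hj⟩
      have := hF j
      simpa only [Nat.cast_zero, mul_zero, sub_zero, add_zero, neg_zero, zpow_zero, mul_one]
        using this
    | succ k ih =>
      intro J D C₀ F hF hF0 hd
      have hev : (F.map ι).eval (ι (theta P y1 * theta P y2) / ι (theta P x1)) = 0 :=
        dvd_iff_isRoot.1 ((dvd_pow_self _ (Nat.succ_ne_zero k)).trans hd)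
      obtain ⟨R₁, hR1, hR2, hR3⟩ := once h1 h3 h4 h5 P hP ι hι x0 x1 y1 y2 hxy hg D C₀ J F hF hF0
        hev
      have hd' : (X - C (ι (theta P y1 * theta P y2) / ι (theta P x1))) ^ k ∣ R₁.map ι := by
        rw [hR1, Polynomial.map_mul, map_B ι _ _ hθ', pow_succ', mul_comm (C (ι (theta P x1))),
          mul_assoc, mul_dvd_mul_iff_left (X_sub_C_ne_zero _)] at hd
        exact (isUnit_C.2 (isUnit_iff_ne_zero.2 hθ')).dvd_mul_left.1 hd
      obtain ⟨R, hS1, hS2, hS3⟩ := ih (J - 1) (D - 2) (C₀ * ng x0 ^ (-1 : ℤ) * ng x1 ^ (-1 : ℤ)) R₁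
        hR2 (fun j hj => hR3 j (by omega)) hd'
      refine ⟨R, ?_, fun j => ?_, fun j hj => hS3 j (by omega)⟩
      · rw [hR1, hS1, pow_succ']
        ring
      · have h := hS2 j
        rw [grp3] at h
        push_cast
        rw [show D - 2 * ((k : ℤ) + 1) - (j : ℤ) = D - 2 - 2 * (k : ℤ) - (j : ℤ) by ring]
        exact h
  obtain ⟨R, hR1, hR2, hR3⟩ := main k (J + 1) D C₀ F hF
    (fun j hj => coeff_eq_zero_of_natDegree_lt (by omega)) hdvd
  exact ⟨R, hR1, hR2, fun j hj => hR3 j (by omega)⟩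

end thm

end Pool.Agent.H331.TH
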